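import Pool.Agent.Y164.SZ.Stm

/-!
SZ-COMB: identities for the combinatorial data.
-/

set_option autoImplicit false

open Finset

namespace Pool.Agent.Y547.SZ

open Pool.Agent.Y164.SZ

variable {ℓ n : ℕ} {τ : Type}

theorem mu_eq {p q : τ → Fin n} (hpq : ∀ s, p s ≠ q s) (i j : Fin n) (s : τ) :
    mu ℓ p q i j s = (if p s = i then 1 else 0) * (if q s = j then 1 else 0) +
      (if q s = i then 1 else 0) * (if p s = j then 1 else 0) := by
  unfold mu
  have h := hpq s
  by_cases h1 : p s = i
  · have h2 : q s ≠ i := fun h2 => h (h1.trans h2.symm)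
    rw [if_pos h1, if_neg h2, zero_mul, add_zero, one_mul]
    by_cases h3 : q s = j
    · rw [if_pos h3, if_pos (Or.inl ⟨h1, h3⟩)]
    · rw [if_neg h3, if_neg]
      rintro (⟨-, h4⟩ | ⟨-, h4⟩)
      · exact h3 h4
      · exact h2 h4
  · rw [if_neg h1, zero_mul, zero_add]
    by_cases h2 : q s = i
    · rw [if_pos h2, one_mul]
      by_cases h3 : p s = j
      · rw [if_pos h3, if_pos (Or.inr ⟨h3, h2⟩)]
      · rw [if_neg h3, if_neg]
        rintro (⟨h4, -⟩ | ⟨h4, -⟩)
        · exact h1 h4
        · exact h3 h4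
    · rw [if_neg h2, zero_mul, if_neg]
      rintro (⟨h4, -⟩ | ⟨-, h4⟩)
      · exact h1 h4
      · exact h2 h4

theorem mu_comm (p q : τ → Fin n) (i j : Fin n) (s : τ) : mu ℓ p q i j s = mu ℓ p q j i s := by
  unfold mu
  simp only [or_comm]

theorem key {p q : τ → Fin n} (hpq : ∀ s, p s ≠ q s) (y : Fin n → ZMod ℓ) (i : Fin n) (s : τ) :
    ∑ j, mu ℓ p q i j s * (y j - y i) = - (tf ℓ (p s) (q s) i * (y (p s) - y (q s))) := by
  have h1 : ∀ j, mu ℓ p q i j s * (y j - y i) =
      (if p s = i then 1 else 0) * (if q s = j then (y j - y i) else 0) +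
      (if q s = i then 1 else 0) * (if p s = j then (y j - y i) else 0) := by
    intro j
    rw [mu_eq hpq, add_mul, mul_assoc, mul_assoc, ite_mul, ite_mul, one_mul, zero_mul]
    simp only [ite_mul, one_mul, zero_mul]
  rw [sum_congr rfl fun j _ => h1 j, sum_add_distrib, ← mul_sum, ← mul_sum,
    sum_ite_eq univ (q s), sum_ite_eq univ (p s), if_pos (mem_univ _), if_pos (mem_univ _)]
  unfold tf
  by_cases h2 : p s = i
  · have h3 : q s ≠ i := fun h3 => hpq s (h2.trans h3.symm)
    rw [if_pos h2, if_neg h3, h2]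
    ring
  · by_cases h3 : q s = i
    · rw [if_neg h2, if_pos h3, h3]
      ring
    · rw [if_neg h2, if_neg h3]
      ring

theorem key' {p q : τ → Fin n} (hpq : ∀ s, p s ≠ q s) (y : Fin n → ZMod ℓ) (i : Fin n) (s : τ) :
    (y (p s) - y (q s)) * tf ℓ (p s) (q s) i = - ∑ j, mu ℓ p q i j s * (y j - y i) := by
  rw [key hpq, neg_neg, mul_comm]

theorem t_comb : S_COMB := by
  intro ℓ n τ _ C
  refine ⟨fun y i s => key C.hpq y i s, fun y => ?_, fun x y => ?_, fun s y => ?_,
    fun y hy i => ?_⟩
  · unfold Comb.ksf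
    have h1 : ∑ i, ∑ j, (y j - y i) * C.c i j = ∑ i, ∑ j, y j * C.c i j - ∑ i, ∑ j, y i * C.c i j := by
      rw [← sum_sub_distrib]
      refine sum_congr rfl fun i _ => ?_
      rw [← sum_sub_distrib]
      exact sum_congr rfl fun j _ => sub_mul _ _ _
    rw [h1, sum_comm, sub_eq_zero]
    refine sum_congr rfl fun i _ => sum_congr rfl fun j _ => ?_
    rw [C.symc]
  · unfold Comb.ksf
    have h1 : ∀ x y : Fin n → ZMod ℓ, ∑ i, (∑ j, (x j - x i) * C.c i j) * y i =
        ∑ i, ∑ j, x j * y i * C.c i j - ∑ i, ∑ j, x i * y i * C.c i j := by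
      intro x y
      rw [← sum_sub_distrib]
      refine sum_congr rfl fun i _ => ?_
      rw [← sum_sub_distrib, sum_mul]
      exact sum_congr rfl fun j _ => by ring
    rw [h1 x y, h1 y x]
    congr 1
    · rw [sum_comm]
      refine sum_congr rfl fun i _ => sum_congr rfl fun j _ => ?_
      rw [C.symc j i]
      ring
    · refine sum_congr rfl fun i _ => sum_congr rfl fun j _ => ?_
      ring
  · set p := C.p s with hp
    set q := C.q s with hq
    have hpq : p ≠ q := C.hpq s
    set A : Fin n → ZMod ℓ := fun l => ∑ s', mu ℓ C.p C.q p l s' * C.G s s' with hA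
    set B : Fin n → ZMod ℓ := fun l => ∑ s', mu ℓ C.p C.q q l s' * C.G s s' with hB
    have h1 : ∑ s', C.G s s' * ((y (C.p s') - y (C.q s')) *
        (tf ℓ (C.p s') (C.q s') p - tf ℓ (C.p s') (C.q s') q)) =
        ∑ l, (-(y l - y p) * A l + (y l - y q) * B l) := by
      have h2 : ∀ s', C.G s s' * ((y (C.p s') - y (C.q s')) *
          (tf ℓ (C.p s') (C.q s') p - tf ℓ (C.p s') (C.q s') q)) =
          ∑ l, (-(y l - y p) * (mu ℓ C.p C.q p l s' * C.G s s') +
            (y l - y q) * (mu ℓ C.p C.q q l s' * C.G s s')) := by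
        intro s'
        rw [mul_sub, key' C.hpq, key' C.hpq, ← sum_neg_distrib, ← sum_neg_distrib,
          ← sum_sub_distrib, mul_sum]
        exact sum_congr rfl fun l _ => by ring
      rw [sum_congr rfl fun s' _ => h2 s', sum_comm]
      refine sum_congr rfl fun l _ => ?_
      rw [sum_add_distrib, ← mul_sum, ← mul_sum]
    have h3 : C.e s * (C.ksf y p - C.ksf y q) =
        ∑ l, ((y l - y p) * (C.e s * C.c p l) - (y l - y q) * (C.e s * C.c q l)) := by
      unfold Comb.ksf
      rw [← sum_sub_distrib, mul_sum]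
      exact sum_congr rfl fun l _ => by ring
    set W : ZMod ℓ := A q + C.e s * C.c p q with hW
    have hBA : B p = A q := sum_congr rfl fun s' _ => by rw [mu_comm]
    have h4 : ∀ l, (-(y l - y p) * A l + (y l - y q) * B l) -
        ((y l - y p) * (C.e s * C.c p l) - (y l - y q) * (C.e s * C.c q l)) =
        (y p - y q) * ((if l = p ∨ l = q then 0 else C.lam s l) +
          ((if l = p then W else 0) + (if l = q then W else 0))) := by
      intro l
      by_cases hlp : l = p
      · rw [if_pos (Or.inl hlp), if_pos hlp, if_neg (fun h => hpq (hlp.symm.trans h)), hlp, hBA,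
          C.symc q p, hW]
        ring
      · by_cases hlq : l = q
        · rw [if_pos (Or.inr hlq), if_neg hlp, if_pos hlq, hlq, hW]
          ring
        · rw [if_neg (not_or.2 ⟨hlp, hlq⟩), if_neg hlp, if_neg hlq]
          have e1 : A l + C.e s * C.c p l = C.lam s l := C.hp s l hlp hlq
          have e2 : B l + C.e s * C.c q l = C.lam s l := C.hq s l hlp hlq
          linear_combination (-(y l - y p)) * e1 + (y l - y q) * e2
    rw [h1, h3, ← sum_sub_distrib, sum_congr rfl fun l _ => h4 l, ← mul_sum, sum_add_distrib,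
      sum_add_distrib, sum_ite_eq' univ p, sum_ite_eq' univ q, if_pos (mem_univ _),
      if_pos (mem_univ _)]
    unfold Comb.gg
    rw [← hp, ← hq]
    have h5 : ∑ s', mu ℓ C.p C.q p q s' * C.G s s' = A q := rfl
    rw [h5, ← hW]
    ring
  · have h1 : ∀ s, C.e s * (y (C.p s) - y (C.q s)) * tf ℓ (C.p s) (C.q s) i =
        ∑ j, (-(y j - y i)) * (mu ℓ C.p C.q i j s * C.e s) := by
      intro s
      rw [mul_assoc, key' C.hpq, ← sum_neg_distrib, mul_sum]
      exact sum_congr rfl fun j _ => by ring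
    rw [sum_congr rfl fun s _ => h1 s, sum_comm]
    have h2 : ∀ j, ∑ s, (-(y j - y i)) * (mu ℓ C.p C.q i j s * C.e s) = -(y j - y i) * C.N := by
      intro j
      rw [← mul_sum]
      by_cases hij : i = j
      · rw [hij]
        ring
      · rw [C.hN i j hij]
    rw [sum_congr rfl fun j _ => h2 j, ← sum_mul, sum_neg_distrib, sum_sub_distrib, hy, sum_const,
      card_univ, Fintype.card_fin, nsmul_eq_mul]
    ring

end Pool.Agent.Y547.SZ
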