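import Pool.Agent.Y164.SZ.Stm

/-!
SZ-KDA: relations between the Kummer data.
-/

set_option autoImplicit false

open Finset

namespace Pool.Agent.Y547.SZ

open Pool.Agent.Y164.SZ Pool.Agent.Y713.SE
open Pool.Agent.Y713.SE.Dat (exists_F)

section kd
variable {ℓ n : ℕ} {K E : Type} [Field K] [Field E] [Algebra K E] [IsGalois K E]
variable (D : Dat ℓ n K) {χ : (E ≃ₐ[K] E) → Fin n → ℕ}

omit [IsGalois K E] in
theorem kd_ne (kd : D.KD χ) (i j : Fin n) : kd.d i j ≠ 0 := by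
  intro h0
  have h := kd.hd i j
  rw [h0, map_zero] at h
  exact kd.h0 i j (pow_eq_zero_iff D.hp.ne_zero |>.1 h)

theorem kd_rel (kd : D.KD χ) (i j l : Fin n) :
    ∃ z : K, z ≠ 0 ∧ kd.d i j * kd.d j l = z ^ ℓ * kd.d i l := by
  have hfix : ∀ σ : E ≃ₐ[K] E, σ (kd.θ i j * kd.θ j l / kd.θ i l) =
      kd.θ i j * kd.θ j l / kd.θ i l := by
    intro σ
    have hA : (D.base E).ζ ^ χ σ i ≠ 0 := pow_ne_zero _ (D.base E).ζ_ne
    have hB : (D.base E).ζ ^ χ σ j ≠ 0 := pow_ne_zero _ (D.base E).ζ_ne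
    have hC : (D.base E).ζ ^ χ σ l ≠ 0 := pow_ne_zero _ (D.base E).ζ_ne
    have h1 := kd.hθ σ i j
    have h2 := kd.hθ σ j l
    have h3 := kd.hθ σ i l
    have n1 := kd.h0 i j
    have n2 := kd.h0 j l
    have n3 := kd.h0 i l
    generalize (D.base E).ζ ^ χ σ i = A at *
    generalize (D.base E).ζ ^ χ σ j = B at *
    generalize (D.base E).ζ ^ χ σ l = C at *
    rw [map_div₀, map_mul]
    have e1 : σ (kd.θ i j) = A * kd.θ i j / B := by
      rw [eq_div_iff hB, mul_comm]; exact h1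
    have e2 : σ (kd.θ j l) = B * kd.θ j l / C := by
      rw [eq_div_iff hC, mul_comm]; exact h2
    have e3 : σ (kd.θ i l) = A * kd.θ i l / C := by
      rw [eq_div_iff hC, mul_comm]; exact h3
    rw [e1, e2, e3]
    field_simp
  obtain ⟨x, hx⟩ := exists_F (F := K) hfix
  have n1 := kd.h0 i j
  have n2 := kd.h0 j l
  have n3 := kd.h0 i l
  refine ⟨x, ?_, ?_⟩
  · rintro rfl
    rw [map_zero] at hx
    exact div_ne_zero (mul_ne_zero n1 n2) n3 hx.symm
  · apply (algebraMap K E).injective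
    rw [map_mul, map_mul, map_pow, hx, ← kd.hd, ← kd.hd, ← kd.hd, div_pow, mul_pow,
      div_mul_cancel₀ _ (pow_ne_zero _ n3)]

end kd

theorem t_kda : S_KDA := by
  intro ℓ n K E _ _ _ _ D χ kd
  refine ⟨kd_ne D kd, kd_rel D kd, fun c i0 => ⟨fun i => ?_, fun i j => ?_⟩⟩
  · exact mul_ne_zero (kd_ne D kd _ _) (pow_ne_zero _ (prod_ne_zero_iff.2 fun j _ => kd_ne D kd _ _))
  · obtain ⟨z, hz, e⟩ := kd_rel D kd i j i0
    refine ⟨z⁻¹, inv_ne_zero hz, ?_⟩
    unfold mm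
    rw [inv_pow, ← mul_assoc (kd.d i j), e]
    have hz' : z ^ ℓ ≠ 0 := pow_ne_zero _ hz
    field_simp

end Pool.Agent.Y547.SZ
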