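import Pool.Agent.Y164.SZ.Stm
import Pool.Agent.Y713.SE.Twist

/-!
Representations modulo `ℓ`-th powers of elements of `k(t)` supported on given primes (SZ-REP).
-/

set_option autoImplicit false
set_option linter.all false

open Polynomial IsDedekindDomain

namespace Pool.Agent.Y547.SZ.Rep

open Pool.Agent.Y713.SE Pool.Agent.Y164.SZ
open Pool.Agent.Y164.PS (el Fam el' el_eq el'_not_dvd)

section
variable {ℓ : ℕ} [hℓ : Fact ℓ.Prime]
variable {k K : Type} [Field k] [Fintype k] [DecidableEq k] [Field K] [Algebra k[X] K]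
  [IsFractionRing k[X] K]
variable {κ : Type} [Fintype κ]

theorem L_pow (S : SYM0 ℓ k) {f g : k[X]} (hg : g ≠ 0) (hf : f ≠ 0) (h : IsCoprime f g) (n : ℕ) :
    L ℓ (f ^ n) g = (n : ZMod ℓ) * L ℓ f g := by
  have h1 := S.L_prod_left ℕ (Finset.range n) (fun _ => f) g hg (fun _ _ => hf) (fun _ _ => h)
  rw [Finset.prod_const, Finset.card_range, Finset.sum_const, Finset.card_range,
    nsmul_eq_mul] at h1
  exact h1

theorem coprime_C' {r : k} (hr : r ≠ 0) (g : k[X]) : IsCoprime (C r) g :=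
  (isCoprime_of_isUnit hr g)
  where
  isCoprime_of_isUnit {r : k} (hr : r ≠ 0) (g : k[X]) : IsCoprime (C r) g :=
    ⟨C r⁻¹, 0, by rw [← C_mul, inv_mul_cancel₀ hr, zero_mul, add_zero, C_1]⟩

theorem L_el' (S : SYM0 ℓ k) {R : κ → k[X]} (hR : Fam R) (x0 : κ) {r : k} (hr : r ≠ 0)
    (n : κ → ℕ) :
    L ℓ (el' R x0 r n) (R x0) =
      ∑ x, (n x : ZMod ℓ) * L ℓ (R x) (R x0) + ((R x0).natDegree : ZMod ℓ) * ch ℓ r := by
  classical
  have h0 := (hR.irr x0).ne_zero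
  have hcop : ∀ x ∈ Finset.univ.erase x0, IsCoprime (R x ^ n x) (R x0) := fun x hx =>
    (hR.coprime (Finset.ne_of_mem_erase hx)).pow_left
  have e1 : L ℓ (el' R x0 r n) (R x0) = L ℓ (C r) (R x0) +
      L ℓ (∏ x ∈ Finset.univ.erase x0, R x ^ n x) (R x0) := by
    have : el' R x0 r n = C r * ∏ x ∈ Finset.univ.erase x0, R x ^ n x := by
      unfold el'
      congr 1
    rw [this]
    exact S.L_mul_left _ _ _ h0 (C_ne_zero.2 hr)
      (Finset.prod_ne_zero_iff.2 fun x _ => pow_ne_zero _ (hR.mon x).ne_zero) (coprime_C' hr _)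
      (IsCoprime.prod_left hcop)
  rw [e1, S.L_C r _ hr, S.L_prod_left κ _ _ _ h0
    (fun x _ => pow_ne_zero _ (hR.mon x).ne_zero) hcop,
    ← Finset.add_sum_erase Finset.univ (fun x => (n x : ZMod ℓ) * L ℓ (R x) (R x0))
      (Finset.mem_univ x0)]
  have h1 : L ℓ (R x0) (R x0) = 0 := by
    apply S.L_nc _ _ h0
    intro h
    exact (hR.irr x0).not_isUnit (h.isUnit_of_dvd' dvd_rfl dvd_rfl)
  rw [h1, mul_zero, zero_add, add_comm]
  congr 1
  exact Finset.sum_congr rfl fun x hx =>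
    L_pow S h0 (hR.mon x).ne_zero (hR.coprime (Finset.ne_of_mem_erase hx)) _

theorem even_val {R : κ → k[X]} (hR : Fam R) {d : K} {r : k} {n : κ → ℕ} {y : K} (hr : r ≠ 0)
    (hy : y ≠ 0) (hd : d = algebraMap k[X] K (el R r n) * y ^ ℓ) (x : κ)
    (h : Pw ℓ ((hp (R x) (hR.irr x)).valuation K d)) : ℓ ∣ n x := by
  apply pw_exp_pow hℓ.out
  have hnm : el' R x r n ∉ (hp (R x) (hR.irr x)).asIdeal := fun hm =>
    el'_not_dvd hR x hr n ((mem_hp _ _).1 hm)
  have hv : (hp (R x) (hR.irr x)).valuation K d =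
      (WithZero.exp (-1 : ℤ)) ^ n x * ((hp (R x) (hR.irr x)).valuation K y) ^ ℓ := by
    rw [hd, el_eq x, map_mul, map_mul, map_mul, map_pow, map_pow, map_pow, val_hp_self,
      (val_eq_one_iff _ _).2 hnm, mul_one]
  have hvy : (hp (R x) (hR.irr x)).valuation K y ≠ 0 := (Valuation.ne_zero_iff _).2 hy
  rw [hv] at h
  have := h.mul (Pw.pow (ℓ := ℓ) ((hp (R x) (hR.irr x)).valuation K y)).inv
  rwa [mul_assoc, mul_inv_cancel₀ (pow_ne_zero _ hvy), mul_one] at this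

theorem local_pw (S : SYM0 ℓ k) {R : κ → k[X]} (hR : Fam R) {d : K} {r : k} {n : κ → ℕ}
    {y : K} (hr : r ≠ 0) (hy : y ≠ 0) (hd : d = algebraMap k[X] K (el R r n) * y ^ ℓ) (x : κ)
    (h : ∃ z : (hp (R x) (hR.irr x)).adicCompletion K, algebraMap K _ d = z ^ ℓ) :
    ℓ ∣ n x ∧ ∑ y, (n y : ZMod ℓ) * L ℓ (R y) (R x) + ((R x).natDegree : ZMod ℓ) * ch ℓ r = 0 := by
  set v := hp (R x) (hR.irr x) with hvdef
  obtain ⟨z, hz⟩ := h
  have hpw : Pw ℓ (v.valuation K d) := by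
    refine ⟨Valued.v z, ?_⟩
    rw [← val_coe, hz, map_pow]
  have he := even_val hR hr hy hd x hpw
  refine ⟨he, ?_⟩
  obtain ⟨b, hb⟩ := he
  have hRK : algebraMap k[X] K (R x) ≠ 0 := by simpa using (hR.mon x).ne_zero
  set w : K := (algebraMap k[X] K (R x)) ^ b * y with hw
  have hw0 : w ≠ 0 := mul_ne_zero (pow_ne_zero _ hRK) hy
  set e := el' R x r n with hedef
  have e2 : d = algebraMap k[X] K e * w ^ ℓ := by
    rw [hd, el_eq x, map_mul, map_pow, hb, hw, mul_pow, ← pow_mul, mul_comm b ℓ]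
    ring
  have hxr : ∃ x' : v.adicCompletion K,
      algebraMap K (v.adicCompletion K) (algebraMap k[X] K e) = x' ^ ℓ := by
    refine ⟨z / algebraMap K _ w, ?_⟩
    have e3 : algebraMap K (v.adicCompletion K) d =
        algebraMap K (v.adicCompletion K) (algebraMap k[X] K e) *
          (algebraMap K (v.adicCompletion K) w) ^ ℓ := by
      rw [← map_pow (algebraMap K (v.adicCompletion K)),
        ← map_mul (algebraMap K (v.adicCompletion K)), ← e2]
    rw [div_pow, ← hz, e3, mul_div_cancel_right₀]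
    exact pow_ne_zero _ ((_root_.map_ne_zero _).2 hw0)
  have hnd : ¬ R x ∣ e := el'_not_dvd hR x hr n
  have hrv : e ∉ v.asIdeal := fun hm => hnd ((mem_hp _ _).1 hm)
  obtain ⟨a, ha⟩ := pow_unit hℓ.out.ne_zero v hrv hxr
  rw [hvdef, mem_hp] at ha
  rw [← L_el' S hR x hr n, S.L_zero_iff _ _ (hR.mon x) (hR.irr x) hnd]
  refine ⟨a, ?_⟩
  have := (dvd_neg (a := R x)).2 ha
  rwa [neg_sub] at this

theorem global_pw (S : SYM0 ℓ k) {R : κ → k[X]} {d : K} (h : IsRep ℓ R d 0 0) :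
    ∃ z : K, d = z ^ ℓ := by
  obtain ⟨r, n, y, hr, hy, hc, hn, hd⟩ := h
  obtain ⟨s, hs⟩ := (S.ch_zero_iff r hr).1 hc
  have hn2 : ∀ x, ∃ m, n x = ℓ * m := fun x => by
    have h1 := hn x
    rw [Pi.zero_apply, ZMod.natCast_eq_zero_iff] at h1
    exact h1
  choose m hm using hn2
  refine ⟨algebraMap k[X] K (el R s m) * y, ?_⟩
  have e : el R r n = (el R s m) ^ ℓ := by
    rw [el, el, mul_pow, ← Finset.prod_pow, hs, ← C_pow]
    congr 1
    refine Finset.prod_congr rfl fun x _ => ?_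
    rw [hm x, ← pow_mul, mul_comm ℓ]
  rw [hd, e, map_pow, mul_pow]

theorem exists_rep {R : κ → k[X]} (hR : Fam R) {d : K} (hd : d ≠ 0)
    (h : ∀ v : HeightOneSpectrum k[X], (∀ x, R x ∉ v.asIdeal) → Pw ℓ (v.valuation K d)) :
    ∃ c u, IsRep ℓ R d c u := by
  classical
  obtain ⟨c, a, z, hc, hz, e⟩ := rep (K := K) hℓ.out (Finset.univ.image R) (fun π hπ => by
      obtain ⟨x, -, rfl⟩ := Finset.mem_image.1 hπ
      exact hR.irr x) hd (fun v hv => h v fun x =>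
        hv _ (Finset.mem_image_of_mem _ (Finset.mem_univ x)))
  refine ⟨ch ℓ c, fun x => (a (R x) : ZMod ℓ), c, fun x => a (R x), z, hc, hz, rfl,
    fun x => rfl, ?_⟩
  rw [e, el, Finset.prod_image (fun x _ y _ hxy => hR.inj hxy)]

end

theorem t : Pool.Agent.Y164.SZ.S_REP := by
  intro ℓ _ k K _ _ _ _ _ _ κ _ R hR S
  refine ⟨?_, ?_, ?_, ?_⟩
  · rintro d c u ⟨r, n, y, hr, hy, hc, hn, hd⟩ x hpw
    rw [← hn x, ZMod.natCast_eq_zero_iff]
    exact even_val hR hr hy hd x hpw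
  · rintro d c u ⟨r, n, y, hr, hy, hc, hn, hd⟩ x hz
    obtain ⟨h1, h2⟩ := local_pw S hR hr hy hd x hz
    refine ⟨?_, ?_⟩
    · rw [← hn x, ZMod.natCast_eq_zero_iff]
      exact h1
    · rw [← h2, hc]
      congr 1
      exact Finset.sum_congr rfl fun y _ => by rw [hn y]
  · intro d h
    exact global_pw S h
  · intro d hd h
    exact exists_rep hR hd h

end Pool.Agent.Y547.SZ.Rep
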